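import Mathlib

set_option autoImplicit false

namespace Pool.Agent.Results.MP_869812_nt.SixteenPoints

/-- Numerator of the map. -/
def num (z : ℚ) : ℚ := 31 * z ^ 2 + 159 * z + 20

/-- Denominator of the map. -/
def den (z : ℚ) : ℚ := 20 - 62 * z

/-- The rational map `(31 z² + 159 z + 20) / (20 - 62 z)` on `ℙ¹(ℚ) = ℚ ∪ {∞}`,
where `none` stands for the point `∞`. -/
def f : Option ℚ → Option ℚ
  | none => none
  | some z => if den z = 0 then none else some (num z / den z)

/-- The eight periodic points: three fixed points, a cycle of length two, one of length three. -/
def perPts : Finset (Option ℚ) :=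
  {none, some (-4 / 3), some (-5 / 31),
    some (21 / 31), some (-200 / 31),
    some (0), some (1), some (-5)}

/-- The eight other rational preimages of the periodic points. -/
def tailPts : Finset (Option ℚ) :=
  {some (10 / 31), some (-35 / 31), some (-144 / 31),
    some (-1 / 31), some (220 / 31),
    some (-4 / 31), some (-221 / 31), some (120 / 31)}

lemma f_inf : f none = none := rfl

lemma f_coe {z w : ℚ} (h : den z ≠ 0) (hw : num z = w * den z) :
    f (some z) = (some w) := by
  change (if den z = 0 then none else some (num z / den z)) = _
  rw [if_neg h, hw, mul_div_assoc, div_self h, mul_one]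

lemma f_pole {z : ℚ} (h : den z = 0) : f (some z) = none := by
  change (if den z = 0 then none else some (num z / den z)) = _
  rw [if_pos h]

lemma f_coe_iff {z w : ℚ} : f (some z) = (some w) →
    den z ≠ 0 ∧ num z = w * den z := by
  intro h
  by_cases h0 : den z = 0
  · rw [f_pole h0] at h
    exact absurd h (by simp)
  · refine ⟨h0, ?_⟩
    have : f (some z) = some (num z / den z) := by
      change (if den z = 0 then none else some (num z / den z)) = _
      rw [if_neg h0]
    rw [this] at h
    have h2 := Option.some.inj h
    rw [← h2, div_mul_cancel₀ _ h0]

/-- The map `f` has degree two (numerator and denominator have no common zero), three rational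
fixed points, a rational cycle of length two and one of length three; the set of rational points
mapped to these eight points has sixteen elements, which are preperiodic. -/
theorem result :
    (∀ z, ¬ (num z = 0 ∧ den z = 0)) ∧
    (f none = none ∧ f (some (-4 / 3)) = some (-4 / 3) ∧ f (some (-5 / 31)) = some (-5 / 31)) ∧
    (f (some (21 / 31)) = some (-200 / 31) ∧ f (some (-200 / 31)) = some (21 / 31)) ∧
    (f (some (0)) = some (1) ∧ f (some (1)) = some (-5) ∧ f (some (-5)) = some (0)) ∧
    f ⁻¹' perPts = ↑(perPts ∪ tailPts) ∧ (perPts ∪ tailPts).card = 16 ∧
    (16 : ℕ∞) ≤ {z : Option ℚ | ∃ m n : ℕ, m < n ∧ f^[m] z = f^[n] z}.encard := by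
  have e1 : f (some (-4 / 3)) = some (-4 / 3) := f_coe (by norm_num [den]) (by norm_num [num, den])
  have e2 : f (some (-5 / 31)) = some (-5 / 31) := f_coe (by norm_num [den]) (by norm_num [num, den])
  have e3 : f (some (21 / 31)) = some (-200 / 31) := f_coe (by norm_num [den]) (by norm_num [num, den])
  have e4 : f (some (-200 / 31)) = some (21 / 31) := f_coe (by norm_num [den]) (by norm_num [num, den])
  have e5 : f (some (0)) = some (1) := f_coe (by norm_num [den]) (by norm_num [num, den])
  have e6 : f (some (1)) = some (-5) := f_coe (by norm_num [den]) (by norm_num [num, den])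
  have e7 : f (some (-5)) = some (0) := f_coe (by norm_num [den]) (by norm_num [num, den])
  have t0 : f (some (10 / 31)) = none := f_pole (by norm_num [den])
  have t1 : f (some (-35 / 31)) = some (-4 / 3) := f_coe (by norm_num [den]) (by norm_num [num, den])
  have t2 : f (some (-144 / 31)) = some (-5 / 31) :=
    f_coe (by norm_num [den]) (by norm_num [num, den])
  have t3 : f (some (-1 / 31)) = some (21 / 31) := f_coe (by norm_num [den]) (by norm_num [num, den])
  have t4 : f (some (220 / 31)) = some (-200 / 31) :=
    f_coe (by norm_num [den]) (by norm_num [num, den])
  have t5 : f (some (-4 / 31)) = some (0) := f_coe (by norm_num [den]) (by norm_num [num, den])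
  have t6 : f (some (-221 / 31)) = some (1) := f_coe (by norm_num [den]) (by norm_num [num, den])
  have t7 : f (some (120 / 31)) = some (-5) := f_coe (by norm_num [den]) (by norm_num [num, den])
  have hpre : f ⁻¹' perPts = ↑(perPts ∪ tailPts) := by
    ext z
    simp only [Set.mem_preimage, Finset.mem_coe, Finset.mem_union]
    constructor
    · rcases z with _ | z
      · intro _; left; simp [perPts]
      ·
        intro h
        simp only [perPts, Finset.mem_insert, Finset.mem_singleton] at h
        have key : ∀ a b : ℚ, (z - a) * (z - b) = 0 → z = a ∨ z = b := fun a b h => by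
          rcases mul_eq_zero.1 h with h | h
          · left; linarith
          · right; linarith
        rcases h with h | h | h | h | h | h | h | h
        · have hz : z = 10 / 31 := by
            by_contra hne
            have h0 : den z ≠ 0 := by
              intro h0
              apply hne
              unfold den at h0
              linarith
            change (if den z = 0 then none else some (num z / den z)) = _ at h
            rw [if_neg h0] at h
            simp at h
          right; simp [tailPts, hz]
        · obtain ⟨-, h2⟩ := f_coe_iff h
          unfold num den at h2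
          rcases key (-4 / 3) (-35 / 31) (by linear_combination h2 / 31) with rfl | rfl
          · left; simp [perPts]
          · right; simp [tailPts]
        · obtain ⟨-, h2⟩ := f_coe_iff h
          unfold num den at h2
          rcases key (-5 / 31) (-144 / 31) (by linear_combination h2 / 31) with rfl | rfl
          · left; simp [perPts]
          · right; simp [tailPts]
        · obtain ⟨-, h2⟩ := f_coe_iff h
          unfold num den at h2
          rcases key (-200 / 31) (-1 / 31) (by linear_combination h2 / 31) with rfl | rfl
          · left; simp [perPts]
          · right; simp [tailPts]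
        · obtain ⟨-, h2⟩ := f_coe_iff h
          unfold num den at h2
          rcases key (21 / 31) (220 / 31) (by linear_combination h2 / 31) with rfl | rfl
          · left; simp [perPts]
          · right; simp [tailPts]
        · obtain ⟨-, h2⟩ := f_coe_iff h
          unfold num den at h2
          rcases key (-5) (-4 / 31) (by linear_combination h2 / 31) with rfl | rfl
          · left; simp [perPts]
          · right; simp [tailPts]
        · obtain ⟨-, h2⟩ := f_coe_iff h
          unfold num den at h2
          rcases key 0 (-221 / 31) (by linear_combination h2 / 31) with rfl | rfl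
          · left; simp [perPts]
          · right; simp [tailPts]
        · obtain ⟨-, h2⟩ := f_coe_iff h
          unfold num den at h2
          rcases key 1 (120 / 31) (by linear_combination h2 / 31) with rfl | rfl
          · left; simp [perPts]
          · right; simp [tailPts]
    · intro h
      simp only [perPts, tailPts, Finset.mem_insert, Finset.mem_singleton] at h
      rcases h with (h | h | h | h | h | h | h | h) | (h | h | h | h | h | h | h | h) <;> subst h
      · rw [f_inf]; simp [perPts]
      · rw [e1]; simp [perPts]
      · rw [e2]; simp [perPts]
      · rw [e3]; simp [perPts]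
      · rw [e4]; simp [perPts]
      · rw [e5]; simp [perPts]
      · rw [e6]; simp [perPts]
      · rw [e7]; simp [perPts]
      · rw [t0]; simp [perPts]
      · rw [t1]; simp [perPts]
      · rw [t2]; simp [perPts]
      · rw [t3]; simp [perPts]
      · rw [t4]; simp [perPts]
      · rw [t5]; simp [perPts]
      · rw [t6]; simp [perPts]
      · rw [t7]; simp [perPts]
  have hcard : (perPts ∪ tailPts).card = 16 := by decide +kernel
  have hper : ∀ w ∈ perPts, f^[6] w = w := by
    intro w hw
    simp only [perPts, Finset.mem_insert, Finset.mem_singleton] at hw
    rcases hw with h | h | h | h | h | h | h | h <;> subst h <;>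
      simp only [Function.iterate_succ, Function.iterate_zero, Function.comp_apply, id_eq,
        f_inf, e1, e2, e3, e4, e5, e6, e7]
  refine ⟨fun z ⟨h1, h2⟩ => ?_, ⟨f_inf, e1, e2⟩, ⟨e3, e4⟩, ⟨e5, e6, e7⟩, hpre, hcard, ?_⟩
  · unfold num at h1
    unfold den at h2
    have : z = 10 / 31 := by linarith
    subst this
    norm_num at h1
  · rw [show (16 : ℕ∞) = ((perPts ∪ tailPts : Finset (Option ℚ)) : Set (Option ℚ)).encard by
      rw [Set.encard_coe_eq_coe_finsetCard, hcard]; rfl]
    apply Set.encard_le_encard
    intro z hz
    rw [← hpre] at hz
    refine ⟨1, 7, by norm_num, ?_⟩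
    have := hper (f z) hz
    rw [Function.iterate_succ_apply f 6 z, this]
    rfl

end Pool.Agent.Results.MP_869812_nt.SixteenPoints
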